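import Pool.Agent.Helper94.UP.Sheet

/-! # Row SM -/

set_option autoImplicit false

open Set Filter Topology

namespace Pool.Agent.Helper94.UP

/-- `Real.smoothTransition` is Lipschitz -/
theorem stSM : ST_SM := by
  have h0 : ContDiff ℝ (⊤ : ℕ∞) Real.smoothTransition := Real.smoothTransition.contDiff
  have h1 : Continuous (fderiv ℝ Real.smoothTransition) := h0.continuous_fderiv (by simp)
  have h2 : HasCompactSupport (fderiv ℝ Real.smoothTransition) := by
    apply HasCompactSupport.intro (isCompact_Icc (a := (0 : ℝ)) (b := 1))
    intro x hx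
    rw [Set.mem_Icc, not_and_or, not_le, not_le] at hx
    rcases hx with hx | hx
    · have h3 : Real.smoothTransition =ᶠ[nhds x] fun _ => 0 := by
        filter_upwards [Iio_mem_nhds hx] with y hy
        exact Real.smoothTransition.zero_of_nonpos (le_of_lt hy)
      rw [h3.fderiv_eq]
      simp
    · have h3 : Real.smoothTransition =ᶠ[nhds x] fun _ => 1 := by
        filter_upwards [Ioi_mem_nhds hx] with y hy
        exact Real.smoothTransition.one_of_one_le (le_of_lt hy)
      rw [h3.fderiv_eq]
      simp
  obtain ⟨B, hB⟩ := h1.bounded_above_of_compact_support h2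
  refine ⟨|B|, abs_nonneg _, fun s t => ?_⟩
  have h3 := Convex.norm_image_sub_le_of_norm_fderiv_le (𝕜 := ℝ) (f := Real.smoothTransition)
    (s := univ) (C := |B|) (x := t) (y := s)
    (fun x _ => (h0.differentiable (by simp)).differentiableAt)
    (fun x _ => (hB x).trans (le_abs_self _)) convex_univ (mem_univ t) (mem_univ s)
  rwa [Real.norm_eq_abs, Real.norm_eq_abs] at h3

end Pool.Agent.Helper94.UP
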